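import Pool.Agent.K1H74.Mot.Defs

/-!
# Chains of correspondences: definitions
-/

set_option autoImplicit false

open CategoryTheory AlgebraicGeometry

universe u v w

namespace Pool.Agent.K1H74.LG

open Pool.Agent.H914 Pool.Agent.H914.VarClass Pool.Agent.H914.VarClass.Obj Pool.Agent.W492.BB
  Pool.Agent.K1H74.Mot

variable {k : Type u} [Field k] {𝒱 : VarClass k} {C : TheoryData.{u, v, 0} 𝒱 ℚ} {K : Type w}
  [Field K]

/-- All the conditions on a Bloch-Beilinson filtration on the Chow groups of the varieties in the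
class `S`, except for the condition `F^(j+1) CH^j(X) = 0`. -/
structure IsUnboundedOn (H : WeilTheoryData.{u, v, w} C K) (N : Kers C) (S : 𝒱.Obj → Prop)
    (F : Steps C) : Prop where
  anti : ∀ X, S X → ∀ (j ν : ℕ) (z : C.A X), In (F X j (ν + 1)) z → In (F X j ν) z
  zero : ∀ X, S X → ∀ (j : ℕ) (z : C.A X), In (F X j 0) z ↔ C.Deg j z
  one : ∀ X, S X → ∀ (j : ℕ) (z : C.A X), In (F X j 1) z ↔ C.Deg j z ∧ HomTrivial H z
  two : ∀ X, S X → ∀ (j : ℕ) (z : C.A X), In (F X j 2) z ↔ In (N X j) z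
  stable : ∀ X Y, S X → S Y → ∀ (j i ν : ℕ) (Γ : C.A (X.prod Y)), C.Deg (X.dim + i - j) Γ →
    ∀ z, In (F X j ν) z → In (F Y i ν) (C.act Γ z)
  shift : ∀ X Y, S X → S Y → ∀ (j i ν : ℕ) (Γ : C.A (X.prod Y)), C.Deg (X.dim + i - j) Γ →
    Kills H Γ (2 * j - ν) → ∀ z, In (F X j ν) z → In (F Y i (ν + 1)) (C.act Γ z)

/-- `Chain H N S j ν X z`: the class `z ∈ CH^j(X)` is obtained from a class in the kernel `N` of an
Abel-Jacobi map, which has level `2`, by applying finitely many correspondences between varieties in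
the class `S`; a correspondence `Γ` applied to a class of codimension `j` and level `ν` keeps the
level, or raises the level by one if `Γ` acts as zero on `H^(2j-ν)`. The number `ν` is the level
reached by `z`. -/
inductive Chain (H : WeilTheoryData.{u, v, w} C K) (N : Kers C) (S : 𝒱.Obj → Prop) :
    ℕ → ℕ → (X : 𝒱.Obj) → C.A X → Prop
  | start (X : 𝒱.Obj) (j : ℕ) (z : C.A X) (hX : S X) (hz : In (N X j) z) : Chain H N S j 2 X z
  | stay (X Y : 𝒱.Obj) (j i ν : ℕ) (Γ : C.A (X.prod Y)) (z : C.A X) (h : Chain H N S j ν X z)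
      (hY : S Y) (hΓ : C.Deg (X.dim + i - j) Γ) : Chain H N S i ν Y (C.act Γ z)
  | up (X Y : 𝒱.Obj) (j i ν : ℕ) (Γ : C.A (X.prod Y)) (z : C.A X) (h : Chain H N S j ν X z)
      (hY : S Y) (hΓ : C.Deg (X.dim + i - j) Γ) (hk : Kills H Γ (2 * j - ν)) :
      Chain H N S i (ν + 1) Y (C.act Γ z)

/-- The Chow motive of `X` is a direct summand of the Chow motive of `W`. -/
def Retract (C : TheoryData.{u, v, 0} 𝒱 ℚ) (X W : 𝒱.Obj) : Prop :=
  ∃ (f : C.A (X.prod W)) (g : C.A (W.prod X)), C.Deg X.dim f ∧ C.Deg W.dim g ∧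
    cmp f g = diag C X

end Pool.Agent.K1H74.LG
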