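import Pool.Agent.K1H74.LG.Defs
import Pool.Agent.K1H74.Mot.Bridge

/-!
# Bloch-Beilinson filtrations: the local-global principle
-/

set_option autoImplicit false

open CategoryTheory AlgebraicGeometry

universe u v w

namespace Pool.Agent.K1H74.LG

open Pool.Agent.H914 Pool.Agent.H914.VarClass Pool.Agent.H914.VarClass.Obj Pool.Agent.W492.BB
  Pool.Agent.W550.Corr Pool.Agent.TH133 Pool.Agent.K1H74.Mot

set_option linter.unusedSectionVars false
set_option linter.unusedVariables false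

variable {k : Type u} [Field k] {𝒱 : VarClass k}

variable {C : TheoryData.{u, v, 0} 𝒱 ℚ} [hC : IsChowProj C] {K : Type w} [Field K]
  {H : WeilTheoryData.{u, v, w} C K} [hH : IsWeilProj H] {X Y Z W T P : 𝒱.Obj}
  {N : Kers C} {S S' : 𝒱.Obj → Prop} {F : Steps C}

omit hC hH in
lemma Chain.mem {j ν : ℕ} {z : C.A X} (h : Chain H N S j ν X z) : S X := by
  cases h with
  | start _ _ _ hX _ => exact hX
  | stay _ _ _ _ _ _ _ _ hY _ => exact hY
  | up _ _ _ _ _ _ _ _ hY _ _ => exact hY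

omit hC hH in
lemma Chain.two_le {j ν : ℕ} {z : C.A X} (h : Chain H N S j ν X z) : 2 ≤ ν := by
  induction h with
  | start => exact le_rfl
  | stay _ _ _ _ _ _ _ _ _ _ ih => exact ih
  | up _ _ _ _ _ _ _ _ _ _ _ ih => omega

lemma Chain.inN (hN : IsAbelJacobiKernel H N) {j ν : ℕ} {z : C.A X} (h : Chain H N S j ν X z) :
    In (N X j) z := by
  induction h with
  | start _ _ _ _ hz => exact hz
  | stay X Y j i ν Γ z h hY hΓ ih => exact hN.stable X Y j i Γ hΓ z ih
  | up X Y j i ν Γ z h hY hΓ _ ih => exact hN.stable X Y j i Γ hΓ z ih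

omit hC hH in
/-- A chain of level `ν + 1 ≥ 3` is a chain of level `ν`. -/
lemma Chain.lower {j ν μ : ℕ} {z : C.A X} (h : Chain H N S j ν X z) (hμ : ν = μ + 1)
    (h2 : 2 ≤ μ) : Chain H N S j μ X z := by
  induction h generalizing μ with
  | start => omega
  | stay X Y j i ν Γ z h hY hΓ ih =>
    exact Chain.stay X Y j i μ Γ z (ih hμ h2) hY hΓ
  | up X Y j i ν Γ z h hY hΓ _ ih =>
    obtain rfl : ν = μ := by omega
    exact Chain.stay X Y j i ν Γ z h hY hΓ

/-- The homologically trivial classes of codimension `j`. -/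
noncomputable def homSub (H : WeilTheoryData.{u, v, w} C K) (X : 𝒱.Obj) (j : ℕ) :
    Submodule ℚ (C.A X) where
  carrier := {z | z ∈ C.gr X j ∧ H.cl z = 0}
  zero_mem' := ⟨Submodule.zero_mem _, map_zero _⟩
  add_mem' := by
    rintro y z ⟨h1, h2⟩ ⟨h3, h4⟩
    exact ⟨Submodule.add_mem _ h1 h3, by rw [map_add, h2, h4, add_zero]⟩
  smul_mem' := by
    rintro q z ⟨h1, h2⟩
    exact ⟨Submodule.smul_mem _ _ h1, BB.cl_smul_zero q h2⟩

/-- The smallest filtration. -/
noncomputable def gen (H : WeilTheoryData.{u, v, w} C K) (N : Kers C) (S : 𝒱.Obj → Prop) :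
    Steps C := fun X j ν =>
  match ν with
  | 0 => C.gr X j
  | 1 => homSub H X j
  | ν + 2 => Submodule.span ℚ {z | Chain H N S j (ν + 2) X z}

lemma mem_gen {j ν : ℕ} {z : C.A X} (hν : 2 ≤ ν) :
    z ∈ gen H N S X j ν ↔ z ∈ Submodule.span ℚ {z | Chain H N S j ν X z} := by
  obtain ⟨ν, rfl⟩ := Nat.exists_eq_add_of_le' hν
  exact Iff.rfl

lemma gen_two (hN : IsAbelJacobiKernel H N) (hX : S X) {j : ℕ} {z : C.A X} :
    z ∈ gen H N S X j 2 ↔ In (N X j) z := by
  rw [mem_gen le_rfl]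
  constructor
  · intro hz
    exact (Submodule.span_le.2 (fun y hy => Chain.inN hN hy) : _ ≤ N X j) hz
  · intro hz
    exact Submodule.subset_span (Chain.start X j z hX hz)

lemma act_span {j i ν μ : ℕ} {Γ : C.A (X.prod Y)} {z : C.A X}
    (hz : z ∈ Submodule.span ℚ {z | Chain H N S j ν X z})
    (h : ∀ y, Chain H N S j ν X y → Chain H N S i μ Y (C.act Γ y)) :
    C.act Γ z ∈ Submodule.span ℚ {z | Chain H N S i μ Y z} := by
  have h1 : Submodule.span ℚ {z | Chain H N S j ν X z} ≤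
      (Submodule.span ℚ {z | Chain H N S i μ Y z}).comap (C.actL Γ) := by
    rw [Submodule.span_le]
    intro y hy
    exact Submodule.subset_span (h y hy)
  exact h1 hz

/-- The filtration generated by chains satisfies all the conditions except `F^(j+1) = 0`. -/
theorem gen_unbounded (hN : IsAbelJacobiKernel H N) (S : 𝒱.Obj → Prop) :
    IsUnboundedOn H N S (gen H N S) where
  anti := by
    intro X hX j ν z hz
    match ν with
    | 0 => exact hz.1
    | 1 =>
      have h1 : z ∈ gen H N S X j 2 := hz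
      rw [gen_two hN hX] at h1
      exact hN.deg X j z h1
    | ν + 2 =>
      have h1 : Submodule.span ℚ {z | Chain H N S j (ν + 3) X z} ≤
          Submodule.span ℚ {z | Chain H N S j (ν + 2) X z} :=
        Submodule.span_mono fun y hy => Chain.lower hy rfl (by omega)
      exact h1 hz
  zero := fun X hX j z => Iff.rfl
  one := fun X hX j z => Iff.rfl
  two := fun X hX j z => gen_two hN hX
  stable := by
    intro X Y hX hY j i ν Γ hΓ z hz
    match ν with
    | 0 =>
      have h1 : z ∈ C.gr X j := hz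
      exact BB.act_degc hΓ h1 (by ring)
    | 1 =>
      obtain ⟨h1, h2⟩ : z ∈ C.gr X j ∧ H.cl z = 0 := hz
      refine ⟨BB.act_degc hΓ h1 (by ring), ?_⟩
      rw [cl_act, h2]
      exact TheoryData.act_map_zero _ _
    | ν + 2 =>
      exact act_span (H := H) (N := N) (S := S) hz fun y hy =>
        Chain.stay X Y j i (ν + 2) Γ y hy hY hΓ
  shift := by
    intro X Y hX hY j i ν Γ hΓ hk z hz
    match ν with
    | 0 =>
      have h1 : z ∈ C.gr X j := hz
      refine ⟨BB.act_degc hΓ h1 (by ring), ?_⟩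
      rw [cl_act]
      refine hk _ ?_
      have := H.cl_mem h1
      have e : 2 * (j : ℤ) - (0 : ℕ) = 2 * j := by push_cast; ring
      rw [e]
      exact this
    | 1 =>
      obtain ⟨h1, h2⟩ : z ∈ C.gr X j ∧ H.cl z = 0 := hz
      have h3 : In (N Y i) (C.act Γ z) := by
        refine hN.kills X Y j i Γ hΓ ?_ z h1 h2
        have e : 2 * (j : ℤ) - (1 : ℕ) = 2 * j - 1 := by push_cast; ring
        rwa [e] at hk
      exact (gen_two hN hY).2 h3
    | ν + 2 =>
      exact act_span (H := H) (N := N) (S := S) hz fun y hy =>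
        Chain.up X Y j i (ν + 2) Γ y hy hY hΓ hk

omit hC hH in
lemma unbounded_of_bb (h : IsBlochBeilinsonOn H N S F) : IsUnboundedOn H N S F :=
  ⟨h.anti, h.zero, h.one, h.two, h.stable, h.shift⟩

omit hC hH in
lemma Chain.le (hF : IsUnboundedOn H N S F) {j ν : ℕ} {z : C.A X} (h : Chain H N S j ν X z) :
    In (F X j ν) z := by
  induction h with
  | start X j z hX hz => exact (hF.two X hX j z).2 hz
  | stay X Y j i ν Γ z h hY hΓ ih => exact hF.stable X Y h.mem hY j i ν Γ hΓ z ih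
  | up X Y j i ν Γ z h hY hΓ hk ih => exact hF.shift X Y h.mem hY j i ν Γ hΓ hk z ih

/-- The filtration generated by chains is the smallest one. -/
theorem gen_le (hF : IsUnboundedOn H N S F) (hX : S X) (j ν : ℕ) : gen H N S X j ν ≤ F X j ν := by
  intro z hz
  match ν with
  | 0 => exact (hF.zero X hX j z).2 hz
  | 1 => exact (hF.one X hX j z).2 hz
  | ν + 2 =>
    have h1 : Submodule.span ℚ {z | Chain H N S j (ν + 2) X z} ≤ F X j (ν + 2) := by
      rw [Submodule.span_le]
      exact fun y hy => Chain.le hF hy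
    exact h1 hz

/-- The chain criterion. -/
theorem bb_of_chain (hN : IsAbelJacobiKernel H N)
    (h : ∀ (X : 𝒱.Obj) (j : ℕ) (z : C.A X), 2 ≤ j → Chain H N S j (j + 1) X z → Null z) :
    IsBlochBeilinsonOn H N S (gen H N S) := by
  have hU := gen_unbounded hN S
  refine ⟨⟨hU.anti, hU.zero, hU.one, ?_, hU.stable, hU.shift⟩, hU.two⟩
  intro X hX j z hz
  match j with
  | 0 =>
    obtain ⟨h1, h2⟩ : z ∈ C.gr X (0 : ℕ) ∧ H.cl z = 0 := hz
    obtain ⟨q, rfl⟩ := hC.gr_zero X z (by exact_mod_cast h1)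
    rw [Algebra.smul_def, mul_one] at h2 ⊢
    by_cases hq : q = 0
    · rw [hq]
      exact map_zero _
    · exfalso
      have h3 : H.cl (algebraMap ℚ (C.A X) q⁻¹ * algebraMap ℚ (C.A X) q) = 0 := by
        rw [map_mul, h2, mul_zero]
      rw [← map_mul, inv_mul_cancel₀ hq, map_one, map_one] at h3
      exact hH.one_ne_zero X h3
  | 1 =>
    have h1 : z ∈ gen H N S X 1 2 := hz
    rw [gen_two hN hX] at h1
    exact hN.abel X z h1
  | j + 2 =>
    have h1 : Submodule.span ℚ {z | Chain H N S (j + 2) (j + 3) X z} ≤ ⊥ := by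
      rw [Submodule.span_le]
      intro y hy
      exact (Submodule.mem_bot ℚ).2 (h X (j + 2) y (by omega) hy)
    exact (Submodule.mem_bot ℚ).1 (h1 hz)

theorem chain_of_bb (hF : IsBlochBeilinsonOn H N S F) (X : 𝒱.Obj) (j : ℕ) (z : C.A X)
    (hz : Chain H N S j (j + 1) X z) : Null z :=
  hF.top X hz.mem j z (Chain.le (unbounded_of_bb hF) hz)

/-- Retracts are transitive. -/
lemma Retract.trans (h1 : Retract C X Y) (h2 : Retract C Y Z) : Retract C X Z := by
  obtain ⟨f, g, hf, hg, e⟩ := h1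
  obtain ⟨f', g', hf', hg', e'⟩ := h2
  refine ⟨C.comp f f', C.comp g' g, ?_, ?_, ?_⟩
  · exact BB.comp_degc hf hf' (by ring)
  · exact BB.comp_degc hg' hg (by ring)
  · change C.comp (C.comp f f') (C.comp g' g) = dg C X
    have e1 : C.comp f g = dg C X := e
    have e1' : C.comp f' g' = dg C Y := e'
    rw [comp_assoc, ← comp_assoc C f', e1', dg_comp, e1]

lemma Retract.refl (X : 𝒱.Obj) : Retract C X X := by
  refine ⟨dg C X, dg C X, dg_mem C X, dg_mem C X, ?_⟩
  change C.comp (dg C X) (dg C X) = dg C X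
  exact comp_dg C _

/-- Transport of chains to a single variety. -/
theorem Chain.transport (hN : IsAbelJacobiKernel H N)
    (hdir : ∀ X Y, S' X → S' Y → ∃ W, S' W ∧ Retract C X W ∧ Retract C Y W)
    (hS : ∀ X, S X → ∃ W, S' W ∧ Retract C X W) {j ν : ℕ} {z : C.A X}
    (h : Chain H N S j ν X z) :
    ∃ W₀, S' W₀ ∧ ∀ W, S' W → Retract C W₀ W → ∀ (f : C.A (X.prod W)) (g : C.A (W.prod X)),
      C.Deg X.dim f → C.Deg W.dim g → cmp f g = diag C X →
      Chain H N (fun Y => Y = W) j ν W (C.act f z) := by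
  induction h with
  | start X j z hX hz =>
    obtain ⟨W₀, h1, h2⟩ := hS X hX
    refine ⟨W₀, h1, fun W hW hW₀ f g hf hg e => Chain.start W j _ rfl ?_⟩
    refine hN.stable X W j j f ?_ z hz
    have e1 : (X.dim : ℤ) + j - j = X.dim := by ring
    rw [e1]
    exact hf
  | stay X Y j i ν Γ z h hY hΓ ih =>
    obtain ⟨W₁, h1, h2⟩ := ih
    obtain ⟨W₂, h3, h4⟩ := hS X h.mem
    obtain ⟨W₀, h5, h6, h7⟩ := hdir W₁ W₂ h1 h3
    refine ⟨W₀, h5, fun W hW hW₀ f g hf hg e => ?_⟩
    obtain ⟨f', g', hf', hg', e'⟩ := (h4.trans h7).trans hW₀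
    have h8 := h2 W hW (h6.trans hW₀) f' g' hf' hg' e'
    have e1 : C.act f (C.act Γ z) = C.act (C.comp g' (C.comp Γ f)) (C.act f' z) := by
      have e2 : C.act g' (C.act f' z) = z := by
        have e3 : C.comp f' g' = dg C X := e'
        rw [← C.act_comp, e3, act_dg]
      rw [C.act_comp, C.act_comp, e2]
    rw [e1]
    refine Chain.stay W W j i ν _ _ h8 rfl ?_
    refine BB.comp_degc hg' (BB.comp_degc hΓ hf (r := (X.dim : ℤ) + i - j) ?_) ?_
    · ring
    · ring
  | up X Y j i ν Γ z h hY hΓ hk ih =>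
    obtain ⟨W₁, h1, h2⟩ := ih
    obtain ⟨W₂, h3, h4⟩ := hS X h.mem
    obtain ⟨W₀, h5, h6, h7⟩ := hdir W₁ W₂ h1 h3
    refine ⟨W₀, h5, fun W hW hW₀ f g hf hg e => ?_⟩
    obtain ⟨f', g', hf', hg', e'⟩ := (h4.trans h7).trans hW₀
    have h8 := h2 W hW (h6.trans hW₀) f' g' hf' hg' e'
    have e1 : C.act f (C.act Γ z) = C.act (C.comp g' (C.comp Γ f)) (C.act f' z) := by
      have e2 : C.act g' (C.act f' z) = z := by
        have e3 : C.comp f' g' = dg C X := e'
        rw [← C.act_comp, e3, act_dg]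
      rw [C.act_comp, C.act_comp, e2]
    rw [e1]
    refine Chain.up W W j i ν _ _ h8 rfl ?_ ?_
    · refine BB.comp_degc hg' (BB.comp_degc hΓ hf (r := (X.dim : ℤ) + i - j) ?_) ?_
      · ring
      · ring
    · intro a ha
      rw [actH_comp, actH_comp]
      have h9 : H.act (H.cl g') a ∈ H.gr X (2 * j - ν) := by
        have h10 : g' ∈ C.gr (W.prod X) (W.dim + 0) := by rw [add_zero]; exact hg'
        have := actH_mem H h10 ha
        rwa [mul_zero, add_zero] at this
      rw [hk _ h9]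
      exact TheoryData.act_map_zero _ _

/-- If `p : W ⟶ X` has a class `c` on `W` with `p_* c = 1` then the motive of `X` is a direct
summand of the motive of `W`. -/
lemma retract_of (p : W ⟶ X) {c : C.A W} (hc : c ∈ C.gr W ((W.dim : ℤ) - X.dim))
    (h : C.push p c = 1) : Retract C X W := by
  refine ⟨C.cograph p, Y148.BB.wg C p c, Y148.BB.cograph_mem p, ?_, ?_⟩
  · have := Y148.BB.wg_mem p hc
    rwa [sub_add_cancel] at this
  · change C.comp (C.cograph p) (Y148.BB.wg C p c) = dg C X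
    have e1 : C.comp (tp C (Y148.BB.wg C p c)) (C.graph p) = dg C X := by
      rw [Y148.BB.comp_graph, tp_eq_push, Y148.BB.wg, ← C.push_comp, ← C.push_comp]
      have e2 : Obj.lift (𝟙 W) p ≫ sw W X ≫ prodMap (𝟙 X) p = p ≫ Obj.lift (𝟙 X) (𝟙 X) := by
        apply prod_ext <;> simp [sw, prodMap, comp_lift]
      rw [e2, C.push_comp, h]
      rfl
    rw [← BB.tp_graph, ← tp_tp C (C.comp (tp C (C.graph p)) (Y148.BB.wg C p c)),
      tp_comp C (ch_comm C), tp_tp, e1, tp_dg]

lemma retract_fst (X Y : 𝒱.Obj) : Retract C X (X.prod Y) := by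
  obtain ⟨o, ho, ho2, ho3⟩ := exists_deg_one C Y
  refine retract_of (fst X Y) (c := C.pull (snd X Y) o) ?_ (ho2 X)
  have h1 := C.pull_mem (snd X Y) ho
  have e : ((X.prod Y).dim : ℤ) - X.dim = Y.dim := by rw [dim_prod]; push_cast; ring
  rwa [e]

lemma retract_snd (X Y : 𝒱.Obj) : Retract C Y (X.prod Y) := by
  obtain ⟨o, ho, ho2, ho3⟩ := exists_deg_one C X
  refine retract_of (snd X Y) (c := C.pull (fst X Y) o) ?_ (ho3 Y)
  have h1 := C.pull_mem (fst X Y) ho
  have e : ((X.prod Y).dim : ℤ) - Y.dim = X.dim := by rw [dim_prod]; push_cast; ring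
  rwa [e]

/-- **Local-global principle.** -/
theorem local_global (hN : IsAbelJacobiKernel H N)
    (hdir : ∀ X Y, S' X → S' Y → ∃ W, S' W ∧ Retract C X W ∧ Retract C Y W)
    (hS : ∀ X, S X → ∃ W, S' W ∧ Retract C X W)
    (h : ∀ W, S' W → ∃ F : Steps C, IsBlochBeilinsonOn H N (fun Y => Y = W) F) :
    IsBlochBeilinsonOn H N S (gen H N S) := by
  refine bb_of_chain hN fun X j z hj hz => ?_
  obtain ⟨W₁, h1, h2⟩ := Chain.transport hN hdir hS hz
  obtain ⟨W₂, h3, h4⟩ := hS X hz.mem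
  obtain ⟨W, h5, h6, h7⟩ := hdir W₁ W₂ h1 h3
  obtain ⟨f, g, hf, hg, e⟩ := h4.trans h7
  have h8 := h2 W h5 h6 f g hf hg e
  obtain ⟨F, hF⟩ := h W h5
  have h9 : C.act f z = 0 := chain_of_bb hF W j _ h8
  have e2 : C.act g (C.act f z) = z := by
    have e3 : C.comp f g = dg C X := e
    rw [← C.act_comp, e3, act_dg]
  change z = 0
  rw [← e2, h9]
  exact TheoryData.act_map_zero _ _

omit hC hH in
lemma restrict (hF : IsBlochBeilinsonOn H N S F) (h : ∀ X, S' X → S X) :
    IsBlochBeilinsonOn H N S' F :=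
  ⟨⟨fun X hX => hF.anti X (h X hX), fun X hX => hF.zero X (h X hX),
    fun X hX => hF.one X (h X hX), fun X hX => hF.top X (h X hX),
    fun X Y hX hY => hF.stable X Y (h X hX) (h Y hY),
    fun X Y hX hY => hF.shift X Y (h X hX) (h Y hY)⟩, fun X hX => hF.two X (h X hX)⟩

end Pool.Agent.K1H74.LG
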